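import Mathlib

/-!
# Subnormal block Toeplitz operators with symbol `Φ = B Φ*`

For every `n ≥ 2` there are a bounded symbol `Φ` with values in the `n × n` matrices and a finite
Blaschke-Potapov product `B` with `Φ = B Φ*` such that the block Toeplitz operator `T_Φ` is
subnormal, but neither normal nor analytic: `Φ = diag (z + conj z, z, …, z)`,
`B = diag (1, z ^ 2, …, z ^ 2)`.
-/

set_option autoImplicit false

open MeasureTheory AddCircle Complex

namespace Pool.Agent.Results.MP_e84edf_an.DirectSum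

/-- The unit circle (as `ℝ / 2πℤ`); the point `x` stands for the complex number
`fourier 1 x = exp (i x)`. -/
abbrev 𝕋 : Type := AddCircle (2 * Real.pi)

/-- the period is positive -/
instance : Fact (0 < 2 * Real.pi) := ⟨Real.two_pi_pos⟩

/-- The complex number `z` of absolute value one at the point `x` of the circle. -/
noncomputable def zz (x : 𝕋) : ℂ := fourier 1 x

/-- The space `L²` of the circle (normalised Lebesgue measure). -/
abbrev L2 : Type := Lp ℂ 2 (haarAddCircle : Measure 𝕋)

lemma h2_zero (n : ℤ) (_ : n < 0) : fourierCoeff (0 : L2) n = 0 := by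
  rw [← fourierBasis_repr]
  simp

lemma h2_add {f g : L2} (hf : ∀ n : ℤ, n < 0 → fourierCoeff f n = 0)
    (hg : ∀ n : ℤ, n < 0 → fourierCoeff g n = 0) (n : ℤ) (hn : n < 0) :
    fourierCoeff (f + g : L2) n = 0 := by
  have h1 := hf n hn
  have h2 := hg n hn
  rw [← fourierBasis_repr] at h1 h2 ⊢
  simp [h1, h2]

lemma h2_smul (c : ℂ) {f : L2} (hf : ∀ n : ℤ, n < 0 → fourierCoeff f n = 0) (n : ℤ) (hn : n < 0) :
    fourierCoeff (c • f : L2) n = 0 := by
  have h1 := hf n hn
  rw [← fourierBasis_repr] at h1 ⊢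
  simp [h1]

/-- The Hardy space `H²`: the functions in `L²` whose Fourier coefficients of negative index
vanish. -/
noncomputable def H2 : Submodule ℂ L2 where
  carrier := {f | ∀ n : ℤ, n < 0 → fourierCoeff f n = 0}
  zero_mem' := h2_zero
  add_mem' := h2_add
  smul_mem' := h2_smul

/-- The Hardy space `H²_{ℂⁿ}` of `n`-tuples of functions in `H²`, with
`‖f‖² = ∑ i, ‖f i‖²`. -/
def HV (n : ℕ) : Type := PiLp 2 (fun _ : Fin n => H2)

/-- the `ℓ²` direct sum structure -/
noncomputable instance (n : ℕ) : NormedAddCommGroup (HV n) :=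
  (inferInstance : NormedAddCommGroup (PiLp 2 (fun _ : Fin n => H2)))

/-- the `ℓ²` direct sum structure -/
noncomputable instance (n : ℕ) : InnerProductSpace ℂ (HV n) :=
  (inferInstance : InnerProductSpace ℂ (PiLp 2 (fun _ : Fin n => H2)))

/-- The components of an element of `H²_{ℂⁿ}`, as functions in `L²`. -/
noncomputable def HV.comp {n : ℕ} (f : HV n) (i : Fin n) : L2 :=
  (WithLp.ofLp (f : PiLp 2 (fun _ : Fin n => H2)) i : H2)

/-- `Φ` is (entrywise) an element of `L^∞`. -/
def IsLInfty {n : ℕ} (Φ : 𝕋 → Matrix (Fin n) (Fin n) ℂ) : Prop :=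
  ∀ i j, MemLp (fun x => Φ x i j) ⊤ haarAddCircle

/-- `Φ` is (entrywise) an element of `H^∞`. -/
def IsHInfty {n : ℕ} (Φ : 𝕋 → Matrix (Fin n) (Fin n) ℂ) : Prop :=
  IsLInfty Φ ∧ ∀ i j, ∀ m : ℤ, m < 0 → fourierCoeff (fun x => Φ x i j) m = 0

/-- `T` is the block Toeplitz operator `T_Φ`: `T f = P (Φ f)`, that is, `T f` is in `H²_{ℂⁿ}` and
`⟪g, T f⟫ = ∫ ⟪g, Φ f⟫` for all `g` in `H²_{ℂⁿ}`. -/
def IsBlockToeplitz {n : ℕ} (Φ : 𝕋 → Matrix (Fin n) (Fin n) ℂ) (T : HV n →L[ℂ] HV n) : Prop :=
  ∀ f g : HV n, inner ℂ g (T f) =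
    ∫ x : 𝕋, ∑ i, (starRingEnd ℂ) (g.comp i x) * ∑ j, Φ x i j * f.comp j x ∂haarAddCircle

/-- A bounded operator on a Hilbert space is normal: `T* T = T T*`. -/
def Normal {H : Type} [NormedAddCommGroup H] [InnerProductSpace ℂ H] [CompleteSpace H]
    (T : H →L[ℂ] H) : Prop :=
  (ContinuousLinearMap.adjoint T).comp T = T.comp (ContinuousLinearMap.adjoint T)

/-- A bounded operator `T` is subnormal: it is the restriction of a normal operator `N` on a
Hilbert space `K` to an invariant subspace (the range of the isometry `J`). -/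
def Subnormal {H : Type} [NormedAddCommGroup H] [InnerProductSpace ℂ H] (T : H →L[ℂ] H) : Prop :=
  ∃ (K : Type) (_ : NormedAddCommGroup K) (_ : InnerProductSpace ℂ K) (_ : CompleteSpace K)
    (J : H →ₗᵢ[ℂ] K) (N : K →L[ℂ] K), Normal N ∧ ∀ h, N (J h) = J (T h)

/-- The Blaschke factor with zero `α`. -/
noncomputable def blaschke (α z : ℂ) : ℂ := (z - α) / (1 - (starRingEnd ℂ) α * z)

/-- `B` is a finite Blaschke-Potapov product: `B z = V ∏ (b_k(z) P_k + (1 - P_k))` with a constant
unitary matrix `V`, non-zero orthogonal projections `P_k` and Blaschke factors `b_k` with zeros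
`α_k`, `|α_k| < 1`. -/
def IsBlaschkePotapov {n : ℕ} (B : ℂ → Matrix (Fin n) (Fin n) ℂ) : Prop :=
  ∃ (V : Matrix (Fin n) (Fin n) ℂ) (m : ℕ) (α : Fin m → ℂ) (P : Fin m → Matrix (Fin n) (Fin n) ℂ),
    V ∈ Matrix.unitaryGroup (Fin n) ℂ ∧ (∀ k, ‖α k‖ < 1) ∧
    (∀ k, P k ≠ 0 ∧ (P k).conjTranspose = P k ∧ P k * P k = P k) ∧
    ∀ z, B z = V * (List.ofFn fun k => blaschke (α k) z • P k + (1 - P k)).prod

/-! ### multiplication by `z` -/

/-- multiplication by `z` on `L²` -/
noncomputable def U : L2 →L[ℂ] L2 :=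
  (ContinuousLinearMap.lsmul ℂ ℂ : ℂ →L[ℂ] ℂ →L[ℂ] ℂ).holderL (haarAddCircle : Measure 𝕋) ⊤ 2 2
    (fourierLp ⊤ 1)


lemma U_coe (f : L2) : (U f : 𝕋 → ℂ) =ᵐ[haarAddCircle] fun x => zz x * f x := by
  have h1 : (U f : 𝕋 → ℂ) =ᵐ[haarAddCircle] fun x =>
      (fourierLp ⊤ 1 : Lp ℂ ⊤ (haarAddCircle : Measure 𝕋)) x * f x := by
    unfold U
    exact (ContinuousLinearMap.lsmul ℂ ℂ : ℂ →L[ℂ] ℂ →L[ℂ] ℂ).coeFn_holder (r := 2)
      (fourierLp ⊤ 1 : Lp ℂ ⊤ (haarAddCircle : Measure 𝕋)) f
  filter_upwards [h1, coeFn_fourierLp (T := 2 * Real.pi) ⊤ 1] with x hx1 hx2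
  rw [hx1, hx2]
  rfl

lemma zz_mul_conj (x : 𝕋) : (starRingEnd ℂ) (zz x) * zz x = 1 := by
  unfold zz
  rw [← fourier_neg, ← fourier_add]
  simp

lemma inner_U (f g : L2) : inner ℂ g (U f) = ∫ x : 𝕋, (starRingEnd ℂ) (g x) * (zz x * f x) ∂haarAddCircle := by
  rw [L2.inner_def]
  apply integral_congr_ae
  filter_upwards [U_coe f] with x hx
  rw [hx]
  simp only [RCLike.inner_apply']

lemma inner_L2 (f g : L2) : inner ℂ g f = ∫ x : 𝕋, (starRingEnd ℂ) (g x) * f x ∂haarAddCircle := by
  rw [L2.inner_def]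
  simp only [RCLike.inner_apply']

lemma inner_UU (f g : L2) : inner ℂ (U g) (U f) = inner ℂ g f := by
  rw [inner_L2, inner_L2]
  apply integral_congr_ae
  filter_upwards [U_coe f, U_coe g] with x hx hy
  rw [hx, hy, map_mul]
  linear_combination ((starRingEnd ℂ) (g x) * f x) * zz_mul_conj x

lemma coeff_eq (f : L2) (n : ℤ) : fourierCoeff f n = inner ℂ (fourierLp 2 n) f := by
  rw [← fourierBasis_repr, fourierBasis.repr_apply_apply, coe_fourierBasis]

lemma U_fourier (n : ℤ) : U (fourierLp 2 n) = fourierLp 2 (n + 1) := by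
  apply Lp.ext
  filter_upwards [U_coe (fourierLp 2 n), coeFn_fourierLp (T := 2 * Real.pi) 2 n,
    coeFn_fourierLp (T := 2 * Real.pi) 2 (n + 1)] with x h1 h2 h3
  rw [h1, h2, h3, fourier_add, mul_comm]
  rfl

lemma coeff_U (f : L2) (n : ℤ) : fourierCoeff (U f) (n + 1) = fourierCoeff f n := by
  rw [coeff_eq, coeff_eq, ← U_fourier, inner_UU]

lemma U_mem {f : L2} (hf : f ∈ H2) : U f ∈ H2 := by
  intro n hn
  have h := coeff_U f (n - 1)
  rw [sub_add_cancel] at h
  rw [h]
  exact hf _ (by omega)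

lemma H2_closed : IsClosed (H2 : Set L2) := by
  have h : (H2 : Set L2) = ⋂ n : ℤ, ⋂ _ : n < 0, {f : L2 | inner ℂ (fourierLp 2 n) f = 0} := by
    ext f
    simp only [Set.mem_iInter, Set.mem_ofPred_eq]
    exact forall_congr' fun n => forall_congr' fun _ => by rw [coeff_eq]
  rw [h]
  refine isClosed_iInter fun n => isClosed_iInter fun _ => ?_
  exact isClosed_eq (by fun_prop) continuous_const

/-- `H²` is a Hilbert space -/
instance : CompleteSpace H2 := H2_closed.completeSpace_coe

/-- the unilateral shift on `H²` -/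
noncomputable def S : H2 →L[ℂ] H2 :=
  (U.comp H2.subtypeL).codRestrict H2 (fun f => U_mem f.2)

lemma S_coe (f : H2) : ((S f : H2) : L2) = U f := rfl

/-- the compression of the multiplication by `z + conj z` -/
noncomputable def A : H2 →L[ℂ] H2 := S + ContinuousLinearMap.adjoint S

lemma A_adj : ContinuousLinearMap.adjoint A = A := by
  unfold A
  rw [map_add, ContinuousLinearMap.adjoint_adjoint, add_comm]

/-! ### diagonal operators -/

section diag

variable {n : ℕ} {E F : Type} [NormedAddCommGroup E] [InnerProductSpace ℂ E]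
  [NormedAddCommGroup F] [InnerProductSpace ℂ F]

/-- the direct sum of operators -/
noncomputable def diag (a : Fin n → E →L[ℂ] F) :
    PiLp 2 (fun _ : Fin n => E) →L[ℂ] PiLp 2 (fun _ : Fin n => F) :=
  ((PiLp.continuousLinearEquiv 2 ℂ (fun _ : Fin n => F)).symm : (Fin n → F) →L[ℂ] _).comp
    ((ContinuousLinearMap.piMap a).comp
      ((PiLp.continuousLinearEquiv 2 ℂ (fun _ : Fin n => E)) : _ →L[ℂ] (Fin n → E)))

@[simp] lemma diag_apply (a : Fin n → E →L[ℂ] F) (f : PiLp 2 (fun _ : Fin n => E)) (i : Fin n) :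
    diag a f i = a i (f i) := rfl

lemma diag_comp {G : Type} [NormedAddCommGroup G] [InnerProductSpace ℂ G]
    (a : Fin n → E →L[ℂ] F) (b : Fin n → F →L[ℂ] G) :
    (diag b).comp (diag a) = diag (fun i => (b i).comp (a i)) := by
  ext f i
  rfl

lemma diag_adjoint [CompleteSpace E] [CompleteSpace F] (a : Fin n → E →L[ℂ] F) :
    ContinuousLinearMap.adjoint (diag a) = diag (fun i => ContinuousLinearMap.adjoint (a i)) := by
  symm
  rw [ContinuousLinearMap.eq_adjoint_iff]
  intro x y
  simp only [PiLp.inner_apply, diag_apply, ContinuousLinearMap.adjoint_inner_left]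

end diag

/-- the space of the example -/
abbrev HV' (n : ℕ) : Type := PiLp 2 (fun _ : Fin n => H2)

/-- completeness -/
instance (n : ℕ) : CompleteSpace (HV n) :=
  (inferInstance : CompleteSpace (PiLp 2 (fun _ : Fin n => H2)))

/-! ### the example -/

variable (n : ℕ)

/-- the operator `T_{z + conj z} ⊕ T_z ⊕ … ⊕ T_z` -/
noncomputable def T : HV' n →L[ℂ] HV' n := diag (fun i => if i.1 = 0 then A else S)

/-- the symbol -/
noncomputable def Φ (x : 𝕋) : Matrix (Fin n) (Fin n) ℂ :=
  Matrix.diagonal (fun i => if i.1 = 0 then zz x + (starRingEnd ℂ) (zz x) else zz x)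

lemma integrable_aux (f g : L2) : Integrable (fun x => (starRingEnd ℂ) (g x) * f x)
    (haarAddCircle : Measure 𝕋) := by
  have := L2.integrable_inner (𝕜 := ℂ) g f
  simpa only [RCLike.inner_apply'] using this

lemma toeplitz (f g : HV' n) : inner ℂ g (T n f) =
    ∫ x : 𝕋, ∑ i, (starRingEnd ℂ) ((g i : L2) x) * ∑ j, Φ n x i j * (f j : L2) x
      ∂haarAddCircle := by
  have h1 : ∀ i : Fin n, Integrable (fun x : 𝕋 => (starRingEnd ℂ) ((g i : L2) x) *
      ∑ j, Φ n x i j * (f j : L2) x) haarAddCircle ∧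
      inner ℂ (g i) ((T n f) i) = ∫ x : 𝕋, (starRingEnd ℂ) ((g i : L2) x) *
        ∑ j, Φ n x i j * (f j : L2) x ∂haarAddCircle := by
    intro i
    have h2 : ∀ x : 𝕋, ∑ j, Φ n x i j * (f j : L2) x =
        (if i.1 = 0 then zz x + (starRingEnd ℂ) (zz x) else zz x) * (f i : L2) x := by
      intro x
      rw [Finset.sum_eq_single i]
      · rw [Φ, Matrix.diagonal_apply_eq]
      · intro j _ hj
        rw [Φ, Matrix.diagonal_apply_ne _ hj.symm, zero_mul]
      · intro h
        exact absurd (Finset.mem_univ i) h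
    simp only [h2]
    by_cases hi : i.1 = 0
    · simp only [hi, if_true]
      have e1 : (fun x : 𝕋 => (starRingEnd ℂ) ((g i : L2) x) * ((zz x + (starRingEnd ℂ) (zz x)) *
          (f i : L2) x)) =ᵐ[haarAddCircle] fun x => (starRingEnd ℂ) ((g i : L2) x) *
            (U (f i : L2)) x + (starRingEnd ℂ) ((U (g i : L2)) x) * (f i : L2) x := by
        filter_upwards [U_coe (f i : L2), U_coe (g i : L2)] with x hx hy
        rw [hx, hy, map_mul]
        ring
      refine ⟨((integrable_aux _ _).add (integrable_aux _ _)).congr e1.symm, ?_⟩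
      rw [integral_congr_ae e1, integral_add (integrable_aux _ _) (integrable_aux _ _),
        ← inner_L2, ← inner_L2]
      have e2 : (T n f) i = A (f i) := by
        simp [T, hi]
      rw [e2, A, add_apply, inner_add_right,
        ContinuousLinearMap.adjoint_inner_right]
      rfl
    · simp only [hi, if_false]
      have e1 : (fun x : 𝕋 => (starRingEnd ℂ) ((g i : L2) x) * (zz x *
          (f i : L2) x)) =ᵐ[haarAddCircle] fun x => (starRingEnd ℂ) ((g i : L2) x) *
            (U (f i : L2)) x := by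
        filter_upwards [U_coe (f i : L2)] with x hx
        rw [hx]
      refine ⟨(integrable_aux _ _).congr e1.symm, ?_⟩
      rw [integral_congr_ae e1, ← inner_L2]
      have e2 : (T n f) i = S (f i) := by
        simp [T, hi]
      rw [e2]
      rfl
  rw [PiLp.inner_apply, integral_finsetSum _ (fun i _ => (h1 i).1)]
  exact Finset.sum_congr rfl fun i _ => (h1 i).2


/-- the inclusion of `H²` in `L²` -/
noncomputable def J : H2 →L[ℂ] L2 := H2.subtypeL

lemma adj_J (f : H2) : ContinuousLinearMap.adjoint J (f : L2) = f := by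
  refine ext_inner_left ℂ fun g => ?_
  rw [ContinuousLinearMap.adjoint_inner_right]
  rfl

/-- components of the normal extension -/
noncomputable def Nc (i : Fin n) : L2 →L[ℂ] L2 :=
  if i.1 = 0 then (J.comp A).comp (ContinuousLinearMap.adjoint J) else U

lemma U_adj_comp : (ContinuousLinearMap.adjoint U).comp U = ContinuousLinearMap.id ℂ L2 := by
  ext1 f
  refine ext_inner_left ℂ fun g => ?_
  rw [ContinuousLinearMap.comp_apply, ContinuousLinearMap.adjoint_inner_right, inner_UU]
  rfl

lemma U_surj (f : L2) : ∃ g, U g = f := by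
  have h : HasSum (fun m : ℤ => fourierCoeff f m • fourierLp 2 m) f := hasSum_fourier_series_L2 f
  have hcl : IsClosed (Set.range U) := by
    have hi : Isometry U := by
      refine AddMonoidHomClass.isometry_of_norm U fun g => ?_
      have h1 := inner_UU g g
      rw [inner_self_eq_norm_sq_to_K, inner_self_eq_norm_sq_to_K] at h1
      have h2 : ‖U g‖ ^ 2 = ‖g‖ ^ 2 := by exact_mod_cast h1
      exact (pow_left_inj₀ (norm_nonneg _) (norm_nonneg _) (by norm_num)).1 h2
    exact hi.isClosedEmbedding.isClosed_range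
  have hmem : f ∈ Set.range U := by
    refine hcl.mem_of_tendsto h (Filter.Eventually.of_forall fun s => ?_)
    have : ∑ m ∈ s, fourierCoeff f m • fourierLp 2 m ∈ LinearMap.range (U : L2 →ₗ[ℂ] L2) := by
      refine Submodule.sum_mem _ fun m _ => Submodule.smul_mem _ _ ?_
      refine ⟨fourierLp 2 (m - 1), ?_⟩
      have := U_fourier (m - 1)
      rw [sub_add_cancel] at this
      exact this
    exact this
  exact hmem

lemma U_comp_adj : U.comp (ContinuousLinearMap.adjoint U) = ContinuousLinearMap.id ℂ L2 := by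
  ext1 f
  obtain ⟨g, rfl⟩ := U_surj f
  have := DFunLike.congr_fun U_adj_comp g
  rw [ContinuousLinearMap.comp_apply] at this ⊢
  rw [this]
  rfl

lemma subnormal : Subnormal (H := HV' n) (T n) := by
  let N : PiLp 2 (fun _ : Fin n => L2) →L[ℂ] PiLp 2 (fun _ : Fin n => L2) := diag (Nc n)
  let JJ : HV' n →ₗᵢ[ℂ] PiLp 2 (fun _ : Fin n => L2) :=
    { toLinearMap := (diag (fun _ => J) : HV' n →L[ℂ] PiLp 2 (fun _ : Fin n => L2))
      norm_map' := by
        intro f
        rw [PiLp.norm_eq_of_L2, PiLp.norm_eq_of_L2]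
        rfl }
  refine ⟨PiLp 2 (fun _ : Fin n => L2), inferInstance, inferInstance, inferInstance, JJ, N, ?_, ?_⟩
  · unfold Normal
    have h1 : ContinuousLinearMap.adjoint N = diag (fun i => ContinuousLinearMap.adjoint (Nc n i)) :=
      diag_adjoint (Nc n)
    rw [h1]
    change (diag _).comp (diag _) = (diag _).comp (diag _)
    rw [diag_comp, diag_comp]
    congr 1
    funext i
    by_cases hi : i.1 = 0
    · have h2 : ContinuousLinearMap.adjoint (Nc n i) = Nc n i := by
        simp only [Nc, hi, if_true]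
        rw [ContinuousLinearMap.adjoint_comp, ContinuousLinearMap.adjoint_comp,
          ContinuousLinearMap.adjoint_adjoint, A_adj, ContinuousLinearMap.comp_assoc]
      rw [h2]
    · simp only [Nc, hi, if_false]
      rw [U_adj_comp, U_comp_adj]
  · intro f
    ext1 i
    change Nc n i (J (f i)) = J ((T n f) i)
    by_cases hi : i.1 = 0
    · simp only [Nc, T, diag_apply, hi, if_true, ContinuousLinearMap.comp_apply]
      congr 2
      exact adj_J (f i)
    · simp only [Nc, T, diag_apply, hi, if_false]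
      rfl

/-- the constant function one in `H²` -/
noncomputable def one : H2 := ⟨fourierLp 2 0, by
  intro m hm
  rw [coeff_eq]
  have := orthonormal_fourier (T := 2 * Real.pi)
  exact this.2 (by omega)⟩

lemma adj_S_one : ContinuousLinearMap.adjoint S one = 0 := by
  refine ext_inner_left ℂ fun g => ?_
  rw [ContinuousLinearMap.adjoint_inner_right, inner_zero_right]
  change inner ℂ (U (g : L2)) (fourierLp 2 0) = 0
  have h1 : inner ℂ (fourierLp 2 0) (U (g : L2)) = 0 := by
    rw [← coeff_eq]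
    have h2 := coeff_U (g : L2) (-1)
    rw [neg_add_cancel] at h2
    rw [h2]
    exact g.2 (-1) (by norm_num)
  rw [← inner_conj_symm, h1, map_zero]


lemma not_normal (hn : 2 ≤ n) : ¬ Normal (H := HV' n) (T n) := by
  intro h0
  unfold Normal at h0
  have h1 : ContinuousLinearMap.adjoint (𝕜 := ℂ) (E := HV' n) (F := HV' n) (T n) =
      diag (fun i => ContinuousLinearMap.adjoint (if i.1 = 0 then A else S)) := diag_adjoint _
  rw [h1] at h0
  let f : HV' n := WithLp.toLp 2 (fun _ => one)
  have h2 := DFunLike.congr_fun h0 f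
  have h3 := congrArg (fun v : HV' n => v ⟨1, by omega⟩) h2
  have h4 : ContinuousLinearMap.adjoint S (S one) = S (ContinuousLinearMap.adjoint S one) := h3
  rw [adj_S_one, map_zero] at h4
  have h5 : inner ℂ one (ContinuousLinearMap.adjoint S (S one)) = (0 : ℂ) := by
    rw [h4, inner_zero_right]
  rw [ContinuousLinearMap.adjoint_inner_right] at h5
  have h6 : inner ℂ (U (fourierLp 2 0)) (U (fourierLp 2 0)) = (0 : ℂ) := h5
  rw [inner_UU, inner_self_eq_zero] at h6
  exact (orthonormal_fourier (T := 2 * Real.pi)).ne_zero 0 h6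

lemma linfty : IsLInfty (Φ n) := by
  intro i j
  have hc : Continuous (fun x => Φ n x i j) := by
    unfold Φ zz
    by_cases hij : i = j
    · subst hij
      simp only [Matrix.diagonal_apply_eq]
      by_cases hi : i.1 = 0
      · simp only [hi, if_true]
        fun_prop
      · simp only [hi, if_false]
        fun_prop
    · simp only [Matrix.diagonal_apply_ne _ hij]
      exact continuous_const
  obtain ⟨C, hC⟩ := isCompact_univ.exists_bound_of_continuousOn hc.continuousOn
  exact memLp_top_of_bound hc.aestronglyMeasurable C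
    (Filter.Eventually.of_forall fun x => hC x (Set.mem_univ x))

lemma not_analytic (hn : 1 ≤ n) : ¬ IsHInfty (Φ n) := by
  rintro ⟨-, h⟩
  have h1 := h ⟨0, by omega⟩ ⟨0, by omega⟩ (-1) (by norm_num)
  have h2 : (fun x : 𝕋 => Φ n x ⟨0, by omega⟩ ⟨0, by omega⟩) =
      (fourier 1 : 𝕋 → ℂ) + (fourier (-1) : 𝕋 → ℂ) := by
    funext x
    simp only [Φ, Matrix.diagonal_apply_eq, if_true, Pi.add_apply, fourier_neg]
    rfl
  rw [h2, fourierCoeff.add, Pi.add_apply, fourierCoeff_fourier, fourierCoeff_fourier] at h1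
  · simp at h1
  · exact (fourier 1 : C(𝕋, ℂ)).continuous.integrable_of_hasCompactSupport
      (HasCompactSupport.of_compactSpace _)
  · exact (fourier (-1) : C(𝕋, ℂ)).continuous.integrable_of_hasCompactSupport
      (HasCompactSupport.of_compactSpace _)

/-- the Blaschke-Potapov product -/
noncomputable def B (z : ℂ) : Matrix (Fin n) (Fin n) ℂ :=
  Matrix.diagonal (fun i => if i.1 = 0 then 1 else z ^ 2)

/-- the projection on the last coordinates -/
noncomputable def Pr : Matrix (Fin n) (Fin n) ℂ :=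
  Matrix.diagonal (fun i => if i.1 = 0 then 0 else 1)

lemma bp (hn : 2 ≤ n) : IsBlaschkePotapov (B n) := by
  refine ⟨1, 2, fun _ => 0, fun _ => Pr n, one_mem _, fun _ => by simp, fun _ => ⟨?_, ?_, ?_⟩, ?_⟩
  · intro h
    have := congrFun (congrFun h ⟨1, by omega⟩) ⟨1, by omega⟩
    simp [Pr] at this
  · unfold Pr
    rw [Matrix.diagonal_conjTranspose]
    congr 1
    funext i
    by_cases hi : i.1 = 0 <;> simp [hi]
  · unfold Pr
    rw [Matrix.diagonal_mul_diagonal]
    congr 1
    funext i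
    by_cases hi : i.1 = 0 <;> simp [hi]
  · intro z
    have h1 : blaschke 0 z • Pr n + (1 - Pr n) =
        Matrix.diagonal (fun i : Fin n => if i.1 = 0 then 1 else z) := by
      unfold Pr blaschke
      ext i j
      by_cases hij : i = j
      · subst hij
        by_cases hi : i.1 = 0 <;> simp [hi]
      · simp [hij]
    simp only [List.ofFn_succ, List.ofFn_zero, List.prod_cons, List.prod_nil, mul_one, one_mul, h1]
    unfold B
    rw [Matrix.diagonal_mul_diagonal]
    congr 1
    funext i
    by_cases hi : i.1 = 0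
    · simp [hi]
    · simp [hi, sq]

lemma symbol_eq (x : 𝕋) : Φ n x = B n (zz x) * (Φ n x).conjTranspose := by
  unfold Φ B
  rw [Matrix.diagonal_conjTranspose, Matrix.diagonal_mul_diagonal]
  congr 1
  funext i
  by_cases hi : i.1 = 0
  · simp [hi, add_comm]
  · simp only [hi, if_false, Pi.star_apply, RCLike.star_def]
    linear_combination (-(zz x)) * zz_mul_conj x

/-- **Main result.** For every `n ≥ 2` there are `Φ ∈ L^∞_{M_n}` and a finite Blaschke-Potapov
product `B` with `Φ = B Φ*` on the circle such that `T_Φ` is a subnormal operator which is not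
normal and `Φ` is not in `H^∞_{M_n}`. -/
theorem result : ∀ n : ℕ, 2 ≤ n →
    ∃ (Φ : 𝕋 → Matrix (Fin n) (Fin n) ℂ) (B : ℂ → Matrix (Fin n) (Fin n) ℂ) (T : HV n →L[ℂ] HV n),
      IsLInfty Φ ∧ IsBlaschkePotapov B ∧ (∀ x, Φ x = B (zz x) * (Φ x).conjTranspose) ∧
      IsBlockToeplitz Φ T ∧ Subnormal T ∧ ¬ Normal T ∧ ¬ IsHInfty Φ :=
  fun n hn => ⟨Φ n, B n, T n, linfty n, bp n hn, symbol_eq n, toeplitz n, subnormal n,
    not_normal n hn, not_analytic n (by omega)⟩

end Pool.Agent.Results.MP_e84edf_an.DirectSum
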